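import Mathlib

/-!
# Chow motives with correspondences of all degrees: definitions
-/

open CategoryTheory Finset

universe u v w w' u' v'

namespace Pool.Agent.TH133.Orl

/-- A grading on the morphisms of a preadditive category: identities have degree zero, degrees add
up under composition, and every morphism is a finite sum of homogeneous ones. -/
structure HomGrading (C : Type u) [Category.{v} C] [Preadditive C] where
  /-- the morphisms of degree `n` -/
  deg : ∀ X Y : C, ℤ → AddSubgroup (X ⟶ Y)
  id_mem : ∀ X, 𝟙 X ∈ deg X X 0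
  comp_mem : ∀ {X Y Z : C} {m n : ℤ} {f : X ⟶ Y} {g : Y ⟶ Z},
    f ∈ deg X Y m → g ∈ deg Y Z n → f ≫ g ∈ deg X Z (m + n)
  exists_sum : ∀ {X Y : C} (f : X ⟶ Y), ∃ (s : Finset ℤ) (c : ℤ → (X ⟶ Y)),
    (∀ n, c n ∈ deg X Y n) ∧ f = ∑ n ∈ s, c n

/-- A graded cohomology theory: a functor to vector spaces over the field `K`, with gradings, such
that morphisms of degree `n` raise the degree by `2 n`. -/
structure Cohomology {C : Type u} [Category.{v} C] [Preadditive C] (G : HomGrading C)
    (K : Type w) [Field K] where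
  /-- the cohomology -/
  H : C ⥤ ModuleCat.{w'} K
  /-- the part of degree `i` -/
  gr : ∀ X : C, ℤ → Submodule K (H.obj X)
  iSup_gr : ∀ X, ⨆ i, gr X i = ⊤
  map_gr : ∀ {X Y : C} {n : ℤ} {f : X ⟶ Y}, f ∈ G.deg X Y n → ∀ i, ∀ x ∈ gr X i,
    H.map f x ∈ gr Y (i + 2 * n)

/-- `X` is pure of weight `i`: its cohomology is concentrated in degree `i`. -/
def Cohomology.Pure {C : Type u} [Category.{v} C] [Preadditive C] {G : HomGrading C}
    {K : Type w} [Field K] (H : Cohomology.{u, v, w, w'} G K) (X : C) (i : ℤ) : Prop :=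
  ∀ j, j ≠ i → H.gr X j = ⊥

/-- A semisimple category over the rational numbers, in the following form: the spaces of morphisms
are finite-dimensional, every morphism `f` has a quasi-inverse `g`, i.e. `f g f = f`, and
idempotents split. -/
class SemisimpleCat (N : Type u') [Category.{v'} N] [Preadditive N] [Linear ℚ N] : Prop where
  finite : ∀ X Y : N, Module.Finite ℚ (X ⟶ Y)
  regular : ∀ {X Y : N} (f : X ⟶ Y), ∃ g : Y ⟶ X, f ≫ g ≫ f = f
  split : IsIdempotentComplete N

/-- The functor `Q` (from Chow motives to numerical motives) is additive and full, and homologically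
trivial morphisms are numerically trivial. -/
structure IsNumerical {C : Type u} [Category.{v} C] [Preadditive C] {G : HomGrading C}
    {K : Type w} [Field K] (H : Cohomology.{u, v, w, w'} G K)
    {N : Type u'} [Category.{v'} N] [Preadditive N] (Q : C ⥤ N) : Prop where
  additive : Q.Additive
  full : Q.Full
  map_eq_zero : ∀ {X Y : C} (f : X ⟶ Y), H.H.map f = 0 → Q.map f = 0

/-- The numerically trivial endomorphisms of `X` of degree zero are nilpotent (which holds if `X` is
finite-dimensional in the sense of Kimura). -/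
def NilpotentKernel {C : Type u} [Category.{v} C] [Preadditive C] (G : HomGrading C)
    {N : Type u'} [Category.{v'} N] [Preadditive N] (Q : C ⥤ N) (X : C) : Prop :=
  ∀ f : End X, (f : X ⟶ X) ∈ G.deg X X 0 → Q.map f = 0 → IsNilpotent f

/-- A Lefschetz decomposition of the object `X` of dimension `d`: `X` is the direct sum of the
twists `P i (-r)`, `0 ≤ i ≤ d`, `0 ≤ r ≤ d - i`, where `P i` is pure of weight `i`. The inclusion of
`P i (-r)` is a morphism from `P i` to `X` of degree `r`, the projection has degree `-r`. -/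
structure Lefschetz {C : Type u} [Category.{v} C] [Preadditive C] {G : HomGrading C}
    {K : Type w} [Field K] (H : Cohomology.{u, v, w, w'} G K) (X : C) (d : ℕ) where
  /-- the primitive part of weight `i` -/
  P : ℕ → C
  /-- the inclusion of `P i (-r)` -/
  inc : ∀ i : ℕ, ℕ → (P i ⟶ X)
  /-- the projection to `P i (-r)` -/
  prj : ∀ i : ℕ, ℕ → (X ⟶ P i)
  pure : ∀ i ≤ d, H.Pure (P i) i
  inc_mem : ∀ i r : ℕ, inc i r ∈ G.deg (P i) X r
  prj_mem : ∀ i r : ℕ, prj i r ∈ G.deg X (P i) (-r)
  inc_prj : ∀ i ≤ d, ∀ r ≤ d - i, inc i r ≫ prj i r = 𝟙 (P i)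
  inc_prj_ne : ∀ i ≤ d, ∀ r ≤ d - i, ∀ j ≤ d, ∀ s ≤ d - j, (i, r) ≠ (j, s) →
    inc i r ≫ prj j s = 0
  total : ∑ i ∈ range (d + 1), ∑ r ∈ range (d - i + 1), prj i r ≫ inc i r = 𝟙 X

/-- The primitive parts of weight `i` of `X` and `Y` are numerically isomorphic. -/
def SamePrimitive {C : Type u} [Category.{v} C] [Preadditive C] {G : HomGrading C}
    {K : Type w} [Field K] {H : Cohomology.{u, v, w, w'} G K} {N : Type u'} [Category.{v'} N]
    (Q : C ⥤ N) {X Y : C} {d : ℕ} (LX : Lefschetz H X d) (LY : Lefschetz H Y d) (i : ℕ) : Prop :=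
  Nonempty (Q.obj (LX.P i) ≅ Q.obj (LY.P i))

/-- `X` and `Y` are isomorphic Chow motives: there are mutually inverse correspondences of degree
zero. -/
def IsoDegZero {C : Type u} [Category.{v} C] [Preadditive C] (G : HomGrading C) (X Y : C) : Prop :=
  ∃ φ : X ≅ Y, φ.hom ∈ G.deg X Y 0 ∧ φ.inv ∈ G.deg Y X 0

end Pool.Agent.TH133.Orl
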