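import Pool.Agent.TH133.Orl.Defs

/-!
# Derived equivalences and Lefschetz decompositions
-/

open CategoryTheory Finset

universe u v w w' u' v'

namespace Pool.Agent.TH133.Orl

section Semisimple

variable {N : Type u'} [Category.{v'} N] [Preadditive N] [Linear ℚ N] [SemisimpleCat N]

instance (X Y : N) : Module.Finite ℚ (X ⟶ Y) := SemisimpleCat.finite X Y

/-- `T` is a direct summand of `V`. -/
def IsSummand (T V : N) : Prop := ∃ (i : T ⟶ V) (p : V ⟶ T), i ≫ p = 𝟙 T

lemma IsSummand.refl (V : N) : IsSummand V V := ⟨𝟙 V, 𝟙 V, Category.id_comp _⟩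

lemma IsSummand.trans {T V W : N} (h : IsSummand T V) (h' : IsSummand V W) : IsSummand T W := by
  obtain ⟨i, p, h⟩ := h
  obtain ⟨j, q, h'⟩ := h'
  exact ⟨i ≫ j, q ≫ p, by rw [Category.assoc, reassoc_of% h', h]⟩

lemma orth {V V₁ V₂ : N} (i₁ : V₁ ⟶ V) (p₁ : V ⟶ V₁) (i₂ : V₂ ⟶ V) (p₂ : V ⟶ V₂)
    (h₁ : i₁ ≫ p₁ = 𝟙 V₁) (h₂ : i₂ ≫ p₂ = 𝟙 V₂) (h : p₁ ≫ i₁ + p₂ ≫ i₂ = 𝟙 V) :
    i₁ ≫ p₂ = 0 := by
  have h3 : i₁ ≫ (p₁ ≫ i₁ + p₂ ≫ i₂) ≫ p₂ = i₁ ≫ p₂ := by rw [h, Category.id_comp]
  rw [Preadditive.add_comp, Preadditive.comp_add, Category.assoc, Category.assoc,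
    reassoc_of% h₁, h₂, Category.comp_id] at h3
  simpa using h3

/-- Additivity of the dimension of the space of morphisms. -/
lemma finrank_hom_add {T V V₁ V₂ : N} (i₁ : V₁ ⟶ V) (p₁ : V ⟶ V₁) (i₂ : V₂ ⟶ V) (p₂ : V ⟶ V₂)
    (h₁ : i₁ ≫ p₁ = 𝟙 V₁) (h₂ : i₂ ≫ p₂ = 𝟙 V₂) (h : p₁ ≫ i₁ + p₂ ≫ i₂ = 𝟙 V) :
    Module.finrank ℚ (T ⟶ V) = Module.finrank ℚ (T ⟶ V₁) + Module.finrank ℚ (T ⟶ V₂) := by
  have h12 : i₁ ≫ p₂ = 0 := orth i₁ p₁ i₂ p₂ h₁ h₂ h
  have h21 : i₂ ≫ p₁ = 0 := orth i₂ p₂ i₁ p₁ h₂ h₁ (by rw [add_comm, h])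
  let e : (T ⟶ V) ≃ₗ[ℚ] (T ⟶ V₁) × (T ⟶ V₂) :=
    { toFun := fun f => (f ≫ p₁, f ≫ p₂)
      map_add' := fun f g => by simp
      map_smul' := fun a f => by simp
      invFun := fun f => f.1 ≫ i₁ + f.2 ≫ i₂
      left_inv := fun f => by
        simp only [Category.assoc]
        rw [← Preadditive.comp_add, h, Category.comp_id]
      right_inv := fun f => by
        simp [Category.assoc, h₁, h₂, h12, h21] }
  rw [e.finrank_eq, Module.finrank_prod]

lemma finrank_hom_iso {T V W : N} (e : V ≅ W) :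
    Module.finrank ℚ (T ⟶ V) = Module.finrank ℚ (T ⟶ W) :=
  LinearEquiv.finrank_eq
    { toFun := fun f => f ≫ e.hom
      map_add' := fun f g => by simp
      map_smul' := fun a f => by simp
      invFun := fun f => f ≫ e.inv
      left_inv := fun f => by simp
      right_inv := fun f => by simp }

lemma finrank_end_pos {V : N} (h : 𝟙 V ≠ 0) : 0 < Module.finrank ℚ (V ⟶ V) := by
  rw [Module.finrank_pos_iff_exists_ne_zero]
  exact ⟨_, h⟩

/-- **Objects are determined by the dimensions of the spaces of morphisms into them.** -/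
theorem iso_of_finrank (n : ℕ) : ∀ V W : N, Module.finrank ℚ (V ⟶ V) ≤ n →
    (∀ T, IsSummand T V ∨ IsSummand T W →
      Module.finrank ℚ (T ⟶ V) = Module.finrank ℚ (T ⟶ W)) → Nonempty (V ≅ W) := by
  induction n with
  | zero =>
    intro V W h0 h
    have hV : 𝟙 V = 0 := by
      by_contra h1
      have := finrank_end_pos h1
      omega
    have hW : 𝟙 W = 0 := by
      by_contra h1
      have h2 := finrank_end_pos h1
      have h3 := h W (Or.inr (IsSummand.refl W))
      rw [← h3] at h2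
      obtain ⟨f, hf⟩ := (Module.finrank_pos_iff_exists_ne_zero (R := ℚ)).1 h2
      apply hf
      rw [← Category.comp_id f, hV, Limits.comp_zero]
    exact ⟨⟨0, 0, by rw [Limits.comp_zero, hV], by rw [Limits.comp_zero, hW]⟩⟩
  | succ n ih =>
    intro V W hn h
    by_cases hV : 𝟙 V = 0
    · apply ih V W _ h
      have : ∀ f : V ⟶ V, f = 0 := fun f => by
        rw [← Category.comp_id f, hV, Limits.comp_zero]
      have h1 : Module.finrank ℚ (V ⟶ V) = 0 := by
        by_contra h2
        obtain ⟨f, hf⟩ := (Module.finrank_pos_iff_exists_ne_zero (R := ℚ)).1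
          (Nat.pos_of_ne_zero h2)
        exact hf (this f)
      omega
    · have h2 := finrank_end_pos hV
      rw [h V (Or.inl (IsSummand.refl V))] at h2
      obtain ⟨f, hf⟩ := (Module.finrank_pos_iff_exists_ne_zero (R := ℚ)).1 h2
      obtain ⟨g', hg'⟩ := SemisimpleCat.regular f
      -- a quasi-inverse on both sides
      obtain ⟨g, hfgf, hgfg⟩ : ∃ g : W ⟶ V, f ≫ g ≫ f = f ∧ g ≫ f ≫ g = g := by
        refine ⟨g' ≫ f ≫ g', ?_, ?_⟩
        · simp only [Category.assoc]
          rw [reassoc_of% hg', hg']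
        · simp only [Category.assoc]
          rw [reassoc_of% hg', reassoc_of% hg']
      have : IsIdempotentComplete N := SemisimpleCat.split
      have hfgf' : (f ≫ g) ≫ f = f := by rw [Category.assoc, hfgf]
      have hgfg' : (g ≫ f) ≫ g = g := by rw [Category.assoc, hgfg]
      have hidV : (f ≫ g) ≫ (f ≫ g) = f ≫ g := by
        rw [← Category.assoc, hfgf']
      have hidW : (g ≫ f) ≫ (g ≫ f) = g ≫ f := by
        rw [← Category.assoc, hgfg']
      have hcV : (𝟙 V - f ≫ g) ≫ (𝟙 V - f ≫ g) = 𝟙 V - f ≫ g := by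
        rw [Preadditive.sub_comp, Preadditive.comp_sub, Preadditive.comp_sub, hidV]
        simp
      have hcW : (𝟙 W - g ≫ f) ≫ (𝟙 W - g ≫ f) = 𝟙 W - g ≫ f := by
        rw [Preadditive.sub_comp, Preadditive.comp_sub, Preadditive.comp_sub, hidW]
        simp
      obtain ⟨V₁, i₁, p₁, hi₁, hp₁⟩ := IsIdempotentComplete.idempotents_split V _ hidV
      obtain ⟨V₂, i₂, p₂, hi₂, hp₂⟩ := IsIdempotentComplete.idempotents_split V _ hcV
      obtain ⟨W₁, j₁, q₁, hj₁, hq₁⟩ := IsIdempotentComplete.idempotents_split W _ hidW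
      obtain ⟨W₂, j₂, q₂, hj₂, hq₂⟩ := IsIdempotentComplete.idempotents_split W _ hcW
      have hVt : p₁ ≫ i₁ + p₂ ≫ i₂ = 𝟙 V := by rw [hp₁, hp₂]; abel
      have hWt : q₁ ≫ j₁ + q₂ ≫ j₂ = 𝟙 W := by rw [hq₁, hq₂]; abel
      -- the isomorphism of the first parts
      let e₁ : V₁ ≅ W₁ :=
        { hom := i₁ ≫ f ≫ q₁
          inv := j₁ ≫ g ≫ p₁
          hom_inv_id := by
            simp only [Category.assoc]
            rw [reassoc_of% hq₁, reassoc_of% hfgf]
            have : i₁ ≫ f ≫ g = i₁ := by rw [← hp₁, reassoc_of% hi₁]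
            rw [reassoc_of% this, hi₁]
          inv_hom_id := by
            simp only [Category.assoc]
            rw [reassoc_of% hp₁, reassoc_of% hgfg]
            have : j₁ ≫ g ≫ f = j₁ := by rw [← hq₁, reassoc_of% hj₁]
            rw [reassoc_of% this, hj₁] }
      have hdim : ∀ T, IsSummand T V₂ ∨ IsSummand T W₂ →
          Module.finrank ℚ (T ⟶ V₂) = Module.finrank ℚ (T ⟶ W₂) := by
        intro T hT
        have hT' : IsSummand T V ∨ IsSummand T W :=
          hT.imp (fun h => h.trans ⟨i₂, p₂, hi₂⟩) (fun h => h.trans ⟨j₂, q₂, hj₂⟩)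
        have h3 := finrank_hom_add (T := T) i₁ p₁ i₂ p₂ hi₁ hi₂ hVt
        have h4 := finrank_hom_add (T := T) j₁ q₁ j₂ q₂ hj₁ hj₂ hWt
        have h5 := finrank_hom_iso (T := T) e₁
        have h6 := h T hT'
        omega
      have hlt : Module.finrank ℚ (V₂ ⟶ V₂) ≤ n := by
        have h3 := finrank_hom_add (T := V) i₁ p₁ i₂ p₂ hi₁ hi₂ hVt
        have h4 : 0 < Module.finrank ℚ (V ⟶ V₁) := by
          rw [Module.finrank_pos_iff_exists_ne_zero]
          refine ⟨p₁, fun h0 => hf ?_⟩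
          rw [← hfgf', ← hp₁, h0, Limits.zero_comp, Limits.zero_comp]
        have h5 : Module.finrank ℚ (V₂ ⟶ V₂) ≤ Module.finrank ℚ (V ⟶ V₂) := by
          refine LinearMap.finrank_le_finrank_of_injective (f := Linear.leftComp ℚ V₂ p₂) ?_
          intro a b hab
          have h6 : p₂ ≫ a = p₂ ≫ b := hab
          rw [← Category.id_comp a, ← Category.id_comp b, ← hi₂, Category.assoc, Category.assoc,
            h6]
        omega
      obtain ⟨e₂⟩ := ih V₂ W₂ hlt hdim
      have a12 := orth i₁ p₁ i₂ p₂ hi₁ hi₂ hVt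
      have a21 := orth i₂ p₂ i₁ p₁ hi₂ hi₁ (by rw [add_comm, hVt])
      have b12 := orth j₁ q₁ j₂ q₂ hj₁ hj₂ hWt
      have b21 := orth j₂ q₂ j₁ q₁ hj₂ hj₁ (by rw [add_comm, hWt])
      exact ⟨{ hom := p₁ ≫ e₁.hom ≫ j₁ + p₂ ≫ e₂.hom ≫ j₂
               inv := q₁ ≫ e₁.inv ≫ i₁ + q₂ ≫ e₂.inv ≫ i₂
               hom_inv_id := by
                simp only [Preadditive.add_comp, Preadditive.comp_add, Category.assoc]
                rw [reassoc_of% hj₁, reassoc_of% hj₂, reassoc_of% b12, reassoc_of% b21]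
                simp only [Limits.zero_comp, Limits.comp_zero, add_zero, zero_add,
                  Iso.hom_inv_id_assoc]
                exact hVt
               inv_hom_id := by
                simp only [Preadditive.add_comp, Preadditive.comp_add, Category.assoc]
                rw [reassoc_of% hi₁, reassoc_of% hi₂, reassoc_of% a12, reassoc_of% a21]
                simp only [Limits.zero_comp, Limits.comp_zero, add_zero, zero_add,
                  Iso.inv_hom_id_assoc]
                exact hWt }⟩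

end Semisimple

section Main

variable {C : Type u} [Category.{v} C] [Preadditive C] {G : HomGrading C} {K : Type w} [Field K]
  {H : Cohomology.{u, v, w, w'} G K} {N : Type u'} [Category.{v'} N] [Preadditive N]
  [Linear ℚ N] [SemisimpleCat N] {Q : C ⥤ N}

lemma gr_eq_top {X : C} {i : ℤ} (h : H.Pure X i) : H.gr X i = ⊤ := by
  rw [eq_top_iff, ← H.iSup_gr X]
  apply iSup_le
  intro j
  by_cases hj : j = i
  · rw [hj]
  · rw [h j hj]
    exact bot_le

lemma map_eq_zero_of_pure (hQ : IsNumerical H Q) {X Y : C} {i j n : ℤ} (hX : H.Pure X i)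
    (hY : H.Pure Y j) {f : X ⟶ Y} (hf : f ∈ G.deg X Y n) (hne : j ≠ i + 2 * n) :
    Q.map f = 0 := by
  apply hQ.map_eq_zero
  ext x
  have h1 := H.map_gr hf i x (by rw [gr_eq_top hX]; trivial)
  rw [hY _ (Ne.symm hne), Submodule.mem_bot] at h1
  rw [h1]
  rfl

lemma exists_deg_zero (hQ : IsNumerical H Q) {X Y : C} {i : ℤ} (hX : H.Pure X i)
    (hY : H.Pure Y i) (φ : Q.obj X ⟶ Q.obj Y) : ∃ f ∈ G.deg X Y 0, Q.map f = φ := by
  have := hQ.additive
  have := hQ.full
  obtain ⟨F, hF⟩ := Q.map_surjective φ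
  obtain ⟨s, c, hc, hs⟩ := G.exists_sum F
  by_cases h0 : (0 : ℤ) ∈ s
  · refine ⟨c 0, hc 0, ?_⟩
    rw [← hF, hs, Functor.map_sum, Finset.sum_eq_single (0 : ℤ)]
    · intro n _ hn
      exact map_eq_zero_of_pure hQ hX hY (hc n) (by omega)
    · intro h
      exact absurd h0 h
  · refine ⟨0, AddSubgroup.zero_mem _, ?_⟩
    rw [← hF, hs, Functor.map_sum, Functor.map_zero]
    symm
    apply Finset.sum_eq_zero
    intro n hn
    exact map_eq_zero_of_pure hQ hX hY (hc n) (by
      intro h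
      apply h0
      have : n = 0 := by omega
      rwa [← this])

lemma hom_eq_zero (hQ : IsNumerical H Q) {X Y : C} {i j : ℤ} (hX : H.Pure X i)
    (hY : H.Pure Y j) (hij : ∀ n : ℤ, j ≠ i + 2 * n) (φ : Q.obj X ⟶ Q.obj Y) : φ = 0 := by
  have := hQ.additive
  have := hQ.full
  obtain ⟨F, hF⟩ := Q.map_surjective φ
  obtain ⟨s, c, hc, hs⟩ := G.exists_sum F
  rw [← hF, hs, Functor.map_sum]
  exact Finset.sum_eq_zero fun n _ => map_eq_zero_of_pure hQ hX hY (hc n) (hij n)

lemma map_inc_prj (Q : C ⥤ N) {X : C} {d : ℕ} (L : Lefschetz H X d) {i r : ℕ} (hi : i ≤ d)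
    (hr : r ≤ d - i) : Q.map (L.inc i r) ≫ Q.map (L.prj i r) = 𝟙 _ := by
  rw [← Q.map_comp, L.inc_prj i hi r hr, Q.map_id]

lemma map_inc_prj_ne (hQ : IsNumerical H Q) {X : C} {d : ℕ} (L : Lefschetz H X d) {i r j s : ℕ}
    (hi : i ≤ d) (hr : r ≤ d - i) (hj : j ≤ d) (hs : s ≤ d - j) (hne : (i, r) ≠ (j, s)) :
    Q.map (L.inc i r) ≫ Q.map (L.prj j s) = 0 := by
  have := hQ.additive
  rw [← Q.map_comp, L.inc_prj_ne i hi r hr j hj s hs hne, Q.map_zero]

/-- The dimension of the space of morphisms into an object with a Lefschetz decomposition. -/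
lemma finrank_lefschetz (hQ : IsNumerical H Q) {X : C} {d : ℕ} (L : Lefschetz H X d) (T : N) :
    Module.finrank ℚ (T ⟶ Q.obj X) =
      ∑ i ∈ range (d + 1), (d - i + 1) * Module.finrank ℚ (T ⟶ Q.obj (L.P i)) := by
  have := hQ.additive
  let e : (T ⟶ Q.obj X) ≃ₗ[ℚ]
      (∀ i : Fin (d + 1), ∀ _ : Fin (d - i + 1), (T ⟶ Q.obj (L.P i))) :=
    { toFun := fun f i r => f ≫ Q.map (L.prj i r)
      map_add' := fun f g => by ext; simp
      map_smul' := fun a f => by ext; simp
      invFun := fun g => ∑ i : Fin (d + 1), ∑ r : Fin (d - i + 1), g i r ≫ Q.map (L.inc i r)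
      left_inv := fun f => by
        simp only [Category.assoc, ← Q.map_comp, ← Preadditive.comp_sum, ← Q.map_sum]
        have h := L.total
        rw [Finset.sum_range] at h
        simp only [Finset.sum_range] at h
        rw [h, Q.map_id, Category.comp_id]
      right_inv := fun g => by
        funext j s
        change (∑ i : Fin (d + 1), ∑ r : Fin (d - i + 1), g i r ≫ Q.map (L.inc i r)) ≫
          Q.map (L.prj j s) = g j s
        rw [Preadditive.sum_comp, Finset.sum_eq_single j]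
        · rw [Preadditive.sum_comp, Finset.sum_eq_single s]
          · rw [Category.assoc, map_inc_prj Q L (by omega) (by omega), Category.comp_id]
          · intro r _ hr
            rw [Category.assoc, map_inc_prj_ne hQ L (by omega) (by omega) (by omega) (by omega)
              (by
                intro h
                apply hr
                apply Fin.ext
                simpa using congrArg Prod.snd h), Limits.comp_zero]
          · intro h
            exact absurd (Finset.mem_univ s) h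
        · intro i _ hi
          rw [Preadditive.sum_comp]
          apply Finset.sum_eq_zero
          intro r _
          rw [Category.assoc, map_inc_prj_ne hQ L (by omega) (by omega) (by omega) (by omega)
            (by
              intro h
              apply hi
              apply Fin.ext
              simpa using congrArg Prod.fst h), Limits.comp_zero]
        · intro h
          exact absurd (Finset.mem_univ j) h }
  rw [e.finrank_eq, Module.finrank_pi_fintype]
  simp only [Module.finrank_pi_fintype, Finset.sum_const, Finset.card_univ, Fintype.card_fin,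
    smul_eq_mul]
  rw [Finset.sum_range]

/-- The primitive parts of all weights are numerically isomorphic. -/
theorem iso_primitive (hQ : IsNumerical H Q) {X Y : C} {d : ℕ} (LX : Lefschetz H X d)
    (LY : Lefschetz H Y d) (e : Q.obj X ≅ Q.obj Y)
    (hS : ∀ i ≤ d, ∀ j ≤ d, i ≠ j → Even (i + j) → SamePrimitive Q LX LY i ∨
      SamePrimitive Q LX LY j) :
    ∀ i ≤ d, SamePrimitive Q LX LY i := by
  intro i hi
  by_contra hno
  have hother : ∀ j ≤ d, i ≠ j → Even (i + j) → Nonempty (Q.obj (LX.P j) ≅ Q.obj (LY.P j)) :=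
    fun j hj hij hp => (hS i hi j hj hij hp).resolve_left hno
  apply hno
  apply iso_of_finrank _ _ _ le_rfl
  intro T hT
  have hS := finrank_hom_iso (T := T) e
  rw [finrank_lefschetz hQ LX T, finrank_lefschetz hQ LY T] at hS
  have hmem : i ∈ range (d + 1) := Finset.mem_range.2 (by omega)
  rw [← Finset.add_sum_erase _ _ hmem, ← Finset.add_sum_erase _ _ hmem] at hS
  have hrest : ∑ j ∈ (range (d + 1)).erase i, (d - j + 1) *
      Module.finrank ℚ (T ⟶ Q.obj (LX.P j)) = ∑ j ∈ (range (d + 1)).erase i, (d - j + 1) *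
      Module.finrank ℚ (T ⟶ Q.obj (LY.P j)) := by
    apply Finset.sum_congr rfl
    intro j hj
    rw [Finset.mem_erase, Finset.mem_range] at hj
    by_cases hj2 : Even (i + j)
    · rw [finrank_hom_iso (hother j (by omega) hj.1.symm hj2).some]
    · have hpar : ∀ n : ℤ, (j : ℤ) ≠ (i : ℤ) + 2 * n := by
        intro n h
        apply hj2
        rw [Nat.even_iff]
        omega
      have hz : ∀ Z : C, H.Pure Z (j : ℤ) → Module.finrank ℚ (T ⟶ Q.obj Z) = 0 := by
        intro Z hZ
        by_contra h0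
        obtain ⟨f, hf⟩ := (Module.finrank_pos_iff_exists_ne_zero (R := ℚ)).1
          (Nat.pos_of_ne_zero h0)
        apply hf
        rcases hT with ⟨a, p, hap⟩ | ⟨a, p, hap⟩
        · rw [← Category.id_comp f, ← hap, Category.assoc,
            hom_eq_zero hQ (LX.pure i hi) hZ hpar (p ≫ f), Limits.comp_zero]
        · rw [← Category.id_comp f, ← hap, Category.assoc,
            hom_eq_zero hQ (LY.pure i hi) hZ hpar (p ≫ f), Limits.comp_zero]
      rw [hz _ (LX.pure j (by omega)), hz _ (LY.pure j (by omega))]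
  rw [hrest] at hS
  exact Nat.eq_of_mul_eq_mul_left (Nat.succ_pos _) (Nat.add_right_cancel hS)

/-- Morphisms between the primitive parts give a morphism of degree zero. -/
def glue {X Y : C} {d : ℕ} (LX : Lefschetz H X d) (LY : Lefschetz H Y d)
    (a : ∀ i, LX.P i ⟶ LY.P i) : X ⟶ Y :=
  ∑ i ∈ range (d + 1), ∑ r ∈ range (d - i + 1), LX.prj i r ≫ a i ≫ LY.inc i r

lemma glue_mem {X Y : C} {d : ℕ} (LX : Lefschetz H X d) (LY : Lefschetz H Y d)
    {a : ∀ i, LX.P i ⟶ LY.P i} (ha : ∀ i ≤ d, a i ∈ G.deg _ _ 0) :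
    glue LX LY a ∈ G.deg X Y 0 := by
  apply AddSubgroup.sum_mem
  intro i hi
  apply AddSubgroup.sum_mem
  intro r _
  have h := G.comp_mem (LX.prj_mem i r) (G.comp_mem (ha i (by
    rw [Finset.mem_range] at hi; omega)) (LY.inc_mem i r))
  have h0 : -(r : ℤ) + (0 + (r : ℤ)) = 0 := by ring
  rwa [h0] at h

lemma map_glue_comp (hQ : IsNumerical H Q) {X Y : C} {d : ℕ} (LX : Lefschetz H X d)
    (LY : Lefschetz H Y d) (a : ∀ i, LX.P i ⟶ LY.P i) (b : ∀ i, LY.P i ⟶ LX.P i)
    (hab : ∀ i ≤ d, Q.map (a i) ≫ Q.map (b i) = 𝟙 _) :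
    Q.map (glue LX LY a ≫ glue LY LX b) = 𝟙 _ := by
  have := hQ.additive
  have h1 : ∀ i ∈ range (d + 1), ∀ r ∈ range (d - i + 1),
      Q.map (LX.prj i r ≫ a i ≫ LY.inc i r) ≫ Q.map (glue LY LX b) =
        Q.map (LX.prj i r ≫ LX.inc i r) := by
    intro i hi r hr
    rw [Finset.mem_range] at hi hr
    rw [glue, Q.map_sum, Preadditive.comp_sum, Finset.sum_eq_single i]
    · rw [Q.map_sum, Preadditive.comp_sum, Finset.sum_eq_single r]
      · simp only [Q.map_comp, Category.assoc]
        rw [reassoc_of% (map_inc_prj Q LY (i := i) (r := r) (by omega) (by omega)),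
          reassoc_of% (hab i (by omega))]
      · intro s hs hsr
        rw [Finset.mem_range] at hs
        simp only [Q.map_comp, Category.assoc]
        rw [reassoc_of% (map_inc_prj_ne hQ LY (i := i) (r := r) (j := i) (s := s) (by omega)
          (by omega) (by omega) (by omega) (by
            intro h
            apply hsr
            simpa using (congrArg Prod.snd h).symm))]
        simp
      · intro h
        exact absurd (Finset.mem_range.2 hr) h
    · intro j hj hji
      rw [Finset.mem_range] at hj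
      rw [Q.map_sum, Preadditive.comp_sum]
      apply Finset.sum_eq_zero
      intro s hs
      rw [Finset.mem_range] at hs
      simp only [Q.map_comp, Category.assoc]
      rw [reassoc_of% (map_inc_prj_ne hQ LY (i := i) (r := r) (j := j) (s := s) (by omega)
        (by omega) (by omega) (by omega) (by
          intro h
          apply hji
          simpa using (congrArg Prod.fst h).symm))]
      simp
    · intro h
      exact absurd (Finset.mem_range.2 hi) h
  rw [Q.map_comp, glue, Q.map_sum, Preadditive.sum_comp]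
  rw [← Q.map_id, ← LX.total, Q.map_sum]
  apply Finset.sum_congr rfl
  intro i hi
  rw [Q.map_sum, Preadditive.sum_comp, Q.map_sum]
  exact Finset.sum_congr rfl fun r hr => h1 i hi r hr

/-- The endomorphisms of degree zero. -/
def degZero (G : HomGrading C) (X : C) : Subring (End X) where
  carrier := {f | (f : X ⟶ X) ∈ G.deg X X 0}
  mul_mem' := by
    intro f g hf hg
    have h := G.comp_mem hg hf
    rwa [add_zero] at h
  one_mem' := G.id_mem X
  add_mem' := by
    intro f g hf hg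
    exact AddSubgroup.add_mem _ hf hg
  zero_mem' := AddSubgroup.zero_mem _
  neg_mem' := by
    intro f hf
    exact AddSubgroup.neg_mem _ hf

lemma exists_inverse (hQ : IsNumerical H Q) {X : C}
    (hnil : NilpotentKernel G Q X) {f : X ⟶ X} (hf : f ∈ G.deg X X 0) (h1 : Q.map f = 𝟙 _) :
    ∃ g ∈ G.deg X X 0, f ≫ g = 𝟙 X ∧ g ≫ f = 𝟙 X := by
  have := hQ.additive
  have hn : f - 𝟙 X ∈ G.deg X X 0 := AddSubgroup.sub_mem _ hf (G.id_mem X)
  obtain ⟨k, hk⟩ := hnil (f - 𝟙 X) hn (by rw [Q.map_sub, h1, Q.map_id, sub_self])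
  let n : degZero G X := ⟨(f - 𝟙 X : X ⟶ X), hn⟩
  have hnn : IsNilpotent n := ⟨k, Subtype.ext (by simpa [n] using hk)⟩
  obtain ⟨u, hu⟩ := hnn.isUnit_one_add
  have hfu : ((u : degZero G X) : End X) = f := by
    rw [hu]
    change (𝟙 X + (f - 𝟙 X) : X ⟶ X) = f
    abel
  refine ⟨((↑u⁻¹ : degZero G X) : End X), (↑u⁻¹ : degZero G X).2, ?_, ?_⟩
  · have h := congrArg (fun x : degZero G X => (x : End X)) u.inv_mul
    change ((↑u⁻¹ : degZero G X) : End X) * ((u : degZero G X) : End X) = 1 at h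
    rw [hfu] at h
    exact h
  · have h := congrArg (fun x : degZero G X => (x : End X)) u.mul_inv
    change ((u : degZero G X) : End X) * ((↑u⁻¹ : degZero G X) : End X) = 1 at h
    rw [hfu] at h
    exact h

/-- **The main theorem.** -/
theorem exists_iso_degree_zero (hQ : IsNumerical H Q) {X Y : C} {d : ℕ} (LX : Lefschetz H X d)
    (LY : Lefschetz H Y d) (hX : NilpotentKernel G Q X) (hY : NilpotentKernel G Q Y)
    (e : X ≅ Y) (hS : ∀ i ≤ d, ∀ j ≤ d, i ≠ j → Even (i + j) → SamePrimitive Q LX LY i ∨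
      SamePrimitive Q LX LY j) : IsoDegZero G X Y := by
  have hall := iso_primitive hQ LX LY (Q.mapIso e) hS
  have hex : ∀ i, ∃ (a : LX.P i ⟶ LY.P i) (b : LY.P i ⟶ LX.P i), i ≤ d →
      a ∈ G.deg _ _ 0 ∧ b ∈ G.deg _ _ 0 ∧ Q.map a ≫ Q.map b = 𝟙 _ ∧
        Q.map b ≫ Q.map a = 𝟙 _ := by
    intro i
    by_cases hi : i ≤ d
    · obtain ⟨α⟩ := hall i hi
      obtain ⟨a, ha, haα⟩ := exists_deg_zero hQ (LX.pure i hi) (LY.pure i hi) α.hom
      obtain ⟨b, hb, hbα⟩ := exists_deg_zero hQ (LY.pure i hi) (LX.pure i hi) α.inv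
      exact ⟨a, b, fun _ => ⟨ha, hb, by rw [haα, hbα, α.hom_inv_id],
        by rw [haα, hbα, α.inv_hom_id]⟩⟩
    · exact ⟨0, 0, fun h => absurd h hi⟩
  choose a b hab using hex
  set u := glue LX LY a with hu
  set w := glue LY LX b with hw
  have hu0 : u ∈ G.deg X Y 0 := glue_mem LX LY fun i hi => (hab i hi).1
  have hw0 : w ∈ G.deg Y X 0 := glue_mem LY LX fun i hi => (hab i hi).2.1
  have huw : u ≫ w ∈ G.deg X X 0 := by
    have := G.comp_mem hu0 hw0
    rwa [add_zero] at this
  have hwu : w ≫ u ∈ G.deg Y Y 0 := by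
    have := G.comp_mem hw0 hu0
    rwa [add_zero] at this
  obtain ⟨g, hg, hg1, -⟩ := exists_inverse hQ hX huw
    (map_glue_comp hQ LX LY a b fun i hi => (hab i hi).2.2.1)
  obtain ⟨g', hg', -, hg2⟩ := exists_inverse hQ hY hwu
    (map_glue_comp hQ LY LX b a fun i hi => (hab i hi).2.2.2)
  have hright : u ≫ (w ≫ g) = 𝟙 X := by rw [← Category.assoc, hg1]
  have hleft : (g' ≫ w) ≫ u = 𝟙 Y := by rw [Category.assoc, hg2]
  have heq : w ≫ g = g' ≫ w := by
    rw [← Category.id_comp (w ≫ g), ← hleft, Category.assoc, hright, Category.comp_id]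
  refine ⟨⟨u, w ≫ g, hright, by rw [heq, hleft]⟩, hu0, ?_⟩
  have := G.comp_mem hw0 hg
  rwa [add_zero] at this

end Main

end Pool.Agent.TH133.Orl
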